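import Pool.Agent.BEH.Stmts

namespace Pool.Agent.BEH.H22

open Set Filter Topology MeasureTheory
open scoped InnerProductSpace ENNReal
open Pool.Agent.BE01 Pool.Agent.BEL

noncomputable section

variable {d : ℕ}

/-- Quotients by powers are smooth on the half line. -/
theorem sm_quot {F : ℝ → ℝ} (hF : ContDiff ℝ ((⊤ : ℕ∞) : WithTop ℕ∞) F) {c : ℝ} (hc : c ≠ 0)
    (k : ℕ) : ContDiffOn ℝ ((⊤ : ℕ∞) : WithTop ℕ∞) (fun t => F t / (c * t ^ k)) (Ioi 0) := by
  apply hF.contDiffOn.div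
  · exact (contDiff_const.mul (contDiff_id.pow k)).contDiffOn
  · intro t ht
    exact mul_ne_zero hc (pow_ne_zero _ (ne_of_gt ht))

theorem sph_pos (d : ℕ) : 0 < sph d := by
  unfold sph
  split_ifs
  · positivity
  · positivity

/-- The charge density. -/
def chg (d : ℕ) (θ' : ℝ → ℝ) (x : En d) (r : ℝ) (y : En d) : ℝ :=
  θ' (‖y - x‖ / r) / (r * sph d * ‖y - x‖ ^ (d - 1))

theorem chg_smooth (rgr : RgrStmt) {A : ℝ} {θ θ' : ℝ → ℝ} (hP : Prof A θ θ') (x : En d) {r : ℝ}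
    (hr : 0 < r) : ContDiff ℝ ((⊤ : ℕ∞) : WithTop ℕ∞) (chg d θ' x r) := by
  have h1 := (rgr d x (fun t => θ' (t / r) / (r * sph d * t ^ (d - 1))) (r / 2) (by positivity)
    (sm_quot (hP.smooth'.comp (contDiff_id.div_const r)) (mul_pos hr (sph_pos d)).ne' (d - 1)) ?_).1
  · exact h1
  · intro s hs
    have h2 : θ' (s / r) = 0 := by
      apply hP.zero'
      left
      rw [div_le_iff₀ hr]
      linarith
    have h3 : θ' 0 = 0 := by
      apply hP.zero'
      left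
      norm_num
    simp only [h2, h3, zero_div]

theorem chg_nonneg {A : ℝ} {θ θ' : ℝ → ℝ} (hP : Prof A θ θ') (x : En d) {r : ℝ}
    (hr : 0 < r) (y : En d) : 0 ≤ chg d θ' x r y := by
  unfold chg
  have := sph_pos d
  have := (hP.le' (‖y - x‖ / r)).1
  positivity

theorem chg_supp {A : ℝ} {θ θ' : ℝ → ℝ} (hP : Prof A θ θ') (x : En d) {r : ℝ}
    (hr : 0 < r) (y : En d) (hy : r ≤ ‖y - x‖) : chg d θ' x r y = 0 := by
  unfold chg
  have h2 : θ' (‖y - x‖ / r) = 0 := by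
    apply hP.zero'
    right
    rw [le_div_iff₀ hr]
    linarith
  rw [h2, zero_div]

theorem chg_supp' {A : ℝ} {θ θ' : ℝ → ℝ} (hP : Prof A θ θ') (x : En d) {r : ℝ}
    (hr : 0 < r) (y : En d) (hy : ‖y - x‖ ≤ r / 2) : chg d θ' x r y = 0 := by
  unfold chg
  have h2 : θ' (‖y - x‖ / r) = 0 := by
    apply hP.zero'
    left
    rw [div_le_iff₀ hr]
    linarith
  rw [h2, zero_div]

theorem chg_le {A : ℝ} {θ θ' : ℝ → ℝ} (hA : 0 < A) (hP : Prof A θ θ') (hd : d = 2 ∨ d = 3)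
    (x : En d) {r : ℝ} (hr : 0 < r) (y : En d) :
    chg d θ' x r y ≤ A * 2 ^ (d - 1) / (sph d * r ^ d) := by
  have hs := sph_pos d
  by_cases hy : ‖y - x‖ ≤ r / 2
  · rw [chg_supp' hP x hr y hy]
    positivity
  · push Not at hy
    have h0 : 0 < ‖y - x‖ := by linarith
    have h1 := (hP.le' (‖y - x‖ / r)).2
    have h2 : (r / 2) ^ (d - 1) ≤ ‖y - x‖ ^ (d - 1) :=
      pow_le_pow_left₀ (by positivity) hy.le _
    have h3 : r * sph d * (r / 2) ^ (d - 1) ≤ r * sph d * ‖y - x‖ ^ (d - 1) :=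
      mul_le_mul_of_nonneg_left h2 (by positivity)
    unfold chg
    calc θ' (‖y - x‖ / r) / (r * sph d * ‖y - x‖ ^ (d - 1))
        ≤ A / (r * sph d * (r / 2) ^ (d - 1)) := by
          apply div_le_div₀ hA.le h1 (by positivity) h3
      _ = A * 2 ^ (d - 1) / (sph d * r ^ d) := by
          rcases hd with rfl | rfl
          · simp only [Nat.add_one_sub_one, pow_one]
            field_simp
          · simp only [Nat.add_one_sub_one]
            field_simp

/-- The difference of the two profiles. -/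
def qq (θ : ℝ → ℝ) (r R t : ℝ) : ℝ := θ (t / r) - θ (t / R)

theorem theta_mono {A : ℝ} {θ θ' : ℝ → ℝ} (hP : Prof A θ θ') : Monotone θ := by
  apply monotone_of_deriv_nonneg
  · intro s
    exact (hP.der s).differentiableAt
  · intro s
    rw [(hP.der s).deriv]
    exact (hP.le' s).1

theorem qq_nonneg {A : ℝ} {θ θ' : ℝ → ℝ} (hP : Prof A θ θ') {r R : ℝ} (hr : 0 < r) (hR : r < R)
    {t : ℝ} (ht : 0 ≤ t) : 0 ≤ qq θ r R t := by
  unfold qq
  have h1 : t / R ≤ t / r := div_le_div_of_nonneg_left ht hr hR.le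
  have := theta_mono hP h1
  linarith

theorem qq_le_one {A : ℝ} {θ θ' : ℝ → ℝ} (hP : Prof A θ θ') {r R : ℝ} (t : ℝ) :
    qq θ r R t ≤ 1 := by
  unfold qq
  have h1 := (hP.rng (t / r)).2
  have h2 := (hP.rng (t / R)).1
  linarith

theorem qq_low {A : ℝ} {θ θ' : ℝ → ℝ} (hP : Prof A θ θ') {r R : ℝ} (hr : 0 < r) (hR : r < R)
    {t : ℝ} (ht : t ≤ r / 2) : qq θ r R t = 0 := by
  unfold qq
  have hR0 : 0 < R := hr.trans hR
  rw [hP.zero, hP.zero]
  · ring
  · rw [div_le_iff₀ hR0]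
    linarith
  · rw [div_le_iff₀ hr]
    linarith

theorem qq_high {A : ℝ} {θ θ' : ℝ → ℝ} (hP : Prof A θ θ') {r R : ℝ} (hr : 0 < r) (hR : r < R)
    {t : ℝ} (ht : R ≤ t) : qq θ r R t = 0 := by
  unfold qq
  have hR0 : 0 < R := hr.trans hR
  rw [hP.one, hP.one]
  · ring
  · rw [le_div_iff₀ hR0]
    linarith
  · rw [le_div_iff₀ hr]
    linarith

theorem qq_smooth {A : ℝ} {θ θ' : ℝ → ℝ} (hP : Prof A θ θ') (r R : ℝ) :
    ContDiff ℝ ((⊤ : ℕ∞) : WithTop ℕ∞) (qq θ r R) := by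
  unfold qq
  exact (hP.smooth.comp (contDiff_id.div_const r)).sub (hP.smooth.comp (contDiff_id.div_const R))

theorem qq_der {A : ℝ} {θ θ' : ℝ → ℝ} (hP : Prof A θ θ') (r R t : ℝ) :
    HasDerivAt (qq θ r R) (θ' (t / r) / r - θ' (t / R) / R) t := by
  unfold qq
  have h1 := (hP.der (t / r)).comp t ((hasDerivAt_id t).div_const r)
  have h2 := (hP.der (t / R)).comp t ((hasDerivAt_id t).div_const R)
  have h3 := h1.sub h2
  have h4 : θ' (t / r) * (1 / r) - θ' (t / R) * (1 / R) = θ' (t / r) / r - θ' (t / R) / R := by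
    ring
  rw [h4] at h3
  exact h3

/-- The radial factor of the gradient. -/
def mm (d : ℕ) (θ : ℝ → ℝ) (r R t : ℝ) : ℝ := qq θ r R t / (sph d * t ^ d)

theorem mm_low {A : ℝ} {θ θ' : ℝ → ℝ} (hP : Prof A θ θ') {r R : ℝ} (hr : 0 < r) (hR : r < R)
    {t : ℝ} (ht : t ≤ r / 2) : mm d θ r R t = 0 := by
  unfold mm
  rw [qq_low hP hr hR ht, zero_div]

theorem mm_high {A : ℝ} {θ θ' : ℝ → ℝ} (hP : Prof A θ θ') {r R : ℝ} (hr : 0 < r) (hR : r < R)
    {t : ℝ} (ht : R ≤ t) : mm d θ r R t = 0 := by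
  unfold mm
  rw [qq_high hP hr hR ht, zero_div]

/-- The density of the potential. -/
def pp (d : ℕ) (θ : ℝ → ℝ) (r R t : ℝ) : ℝ := qq θ r R t / (sph d * t ^ (d - 1))

theorem pp_low {A : ℝ} {θ θ' : ℝ → ℝ} (hP : Prof A θ θ') {r R : ℝ} (hr : 0 < r) (hR : r < R)
    {t : ℝ} (ht : t ≤ r / 2) : pp d θ r R t = 0 := by
  unfold pp
  rw [qq_low hP hr hR ht, zero_div]

theorem pp_high {A : ℝ} {θ θ' : ℝ → ℝ} (hP : Prof A θ θ') {r R : ℝ} (hr : 0 < r) (hR : r < R)
    {t : ℝ} (ht : R ≤ t) : pp d θ r R t = 0 := by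
  unfold pp
  rw [qq_high hP hr hR ht, zero_div]

theorem pp_cont {A : ℝ} {θ θ' : ℝ → ℝ} (hP : Prof A θ θ') {r R : ℝ} (hr : 0 < r) (hR : r < R) :
    Continuous (pp d θ r R) := by
  rw [continuous_iff_continuousAt]
  intro t
  by_cases ht : 0 < t
  · have h1 := sm_quot (qq_smooth hP r R) (sph_pos d).ne' (d - 1)
    exact (h1.continuousOn).continuousAt (Ioi_mem_nhds ht)
  · have h2 : (fun _ : ℝ => (0 : ℝ)) =ᶠ[𝓝 t] pp d θ r R := by
      filter_upwards [Iio_mem_nhds (show t < r / 2 by linarith)] with s hs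
      exact (pp_low hP hr hR (le_of_lt hs)).symm
    exact continuousAt_const.congr h2

/-- The radial potential. -/
def QQ (d : ℕ) (θ : ℝ → ℝ) (r R s : ℝ) : ℝ := ∫ t in s..R, pp d θ r R t

theorem QQ_der {A : ℝ} {θ θ' : ℝ → ℝ} (hP : Prof A θ θ') {r R : ℝ} (hr : 0 < r) (hR : r < R)
    (s : ℝ) : HasDerivAt (QQ d θ r R) (-pp d θ r R s) s := by
  have hc : Continuous (pp d θ r R) := pp_cont hP hr hR
  unfold QQ
  exact intervalIntegral.integral_hasDerivAt_left (hc.intervalIntegrable _ _)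
    (hc.stronglyMeasurableAtFilter _ _) hc.continuousAt

theorem QQ_smooth {A : ℝ} {θ θ' : ℝ → ℝ} (hP : Prof A θ θ') {r R : ℝ} (hr : 0 < r) (hR : r < R) :
    ContDiffOn ℝ ((⊤ : ℕ∞) : WithTop ℕ∞) (QQ d θ r R) (Ioi 0) := by
  have h1 : ContDiffOn ℝ ((⊤ : ℕ∞) : WithTop ℕ∞) (deriv (QQ d θ r R)) (Ioi 0) := by
    have h2 : deriv (QQ d θ r R) = fun s => -pp d θ r R s := by
      funext s
      exact (QQ_der hP hr hR s).deriv
    rw [h2]
    exact (sm_quot (qq_smooth hP r R) (sph_pos d).ne' (d - 1)).neg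
  rw [contDiffOn_infty_iff_deriv_of_isOpen isOpen_Ioi]
  exact ⟨fun s _ => (QQ_der hP hr hR s).differentiableAt.differentiableWithinAt, h1⟩

theorem QQ_low {A : ℝ} {θ θ' : ℝ → ℝ} (hP : Prof A θ θ') {r R : ℝ} (hr : 0 < r) (hR : r < R)
    {s : ℝ} (hs : s < r / 2) : QQ d θ r R s = QQ d θ r R 0 := by
  have hc : Continuous (pp d θ r R) := pp_cont hP hr hR
  unfold QQ
  rw [← intervalIntegral.integral_add_adjacent_intervals (hc.intervalIntegrable s 0)
    (hc.intervalIntegrable 0 R)]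
  have h1 : ∫ t in s..0, pp d θ r R t = 0 := by
    apply intervalIntegral.integral_zero_ae
    refine Eventually.of_forall fun t ht => ?_
    apply pp_low hP hr hR
    rw [uIoc] at ht
    have : t ≤ max s 0 := ht.2
    rcases le_max_iff.1 this with h | h
    · linarith
    · linarith
  rw [h1, zero_add]

theorem QQ_high {A : ℝ} {θ θ' : ℝ → ℝ} (hP : Prof A θ θ') {r R : ℝ} (hr : 0 < r) (hR : r < R)
    {s : ℝ} (hs : R ≤ s) : QQ d θ r R s = 0 := by
  unfold QQ
  apply intervalIntegral.integral_zero_ae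
  refine Eventually.of_forall fun t ht => ?_
  apply pp_high hP hr hR
  rw [uIoc, min_eq_right hs] at ht
  exact ht.1.le

theorem QQ_nonneg {A : ℝ} {θ θ' : ℝ → ℝ} (hP : Prof A θ θ') {r R : ℝ} (hr : 0 < r) (hR : r < R)
    {s : ℝ} (hs : 0 ≤ s) : 0 ≤ QQ d θ r R s := by
  rcases le_total s R with h | h
  · unfold QQ
    apply intervalIntegral.integral_nonneg h
    intro t ht
    unfold pp
    have h1 := qq_nonneg hP hr hR (hs.trans ht.1)
    have h2 := sph_pos d
    have h3 : 0 ≤ t := hs.trans ht.1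
    positivity
  · rw [QQ_high hP hr hR h]

theorem mm_low0 {A : ℝ} {θ θ' : ℝ → ℝ} (hP : Prof A θ θ') {r R : ℝ} (hr : 0 < r) (hR : r < R)
    {s : ℝ} (hs : s < r / 2) : mm d θ r R s = mm d θ r R 0 := by
  rw [mm_low hP hr hR hs.le, mm_low hP hr hR (by positivity)]

theorem mm_der {A : ℝ} {θ θ' : ℝ → ℝ} (hP : Prof A θ θ') (hd : d = 2 ∨ d = 3) {r R : ℝ}
    (hr : 0 < r) (hR : r < R) {t : ℝ} (ht : 0 < t) :
    deriv (mm d θ r R) t * t + d * mm d θ r R t =
      (θ' (t / r) / r - θ' (t / R) / R) / (sph d * t ^ (d - 1)) := by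
  have hs := (sph_pos d).ne'
  have h1 : HasDerivAt (fun s : ℝ => sph d * s ^ d) (sph d * (d * t ^ (d - 1))) t :=
    (hasDerivAt_pow d t).const_mul (sph d)
  have h2 : HasDerivAt (mm d θ r R) _ t := (qq_der hP r R t).div h1 (by positivity)
  rw [h2.deriv]
  unfold mm
  have ht' := ht.ne'
  have hr' := hr.ne'
  have hR' := (hr.trans hR).ne'
  rcases hd with rfl | rfl
  · simp only [Nat.add_one_sub_one, pow_one]
    push_cast
    field_simp
    ring
  · simp only [Nat.add_one_sub_one]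
    push_cast
    field_simp
    ring

/-- The potential. -/
def psi (θ : ℝ → ℝ) (x : En d) (r R : ℝ) (y : En d) : ℝ := QQ d θ r R ‖y - x‖

/-- The factor of the gradient. -/
def MM (θ : ℝ → ℝ) (x : En d) (r R : ℝ) (y : En d) : ℝ := mm d θ r R ‖y - x‖

theorem psi_grad (rgr : RgrStmt) {A : ℝ} {θ θ' : ℝ → ℝ} (hP : Prof A θ θ')
    (hd : d = 2 ∨ d = 3) (x : En d) {r R : ℝ} (hr : 0 < r) (hR : r < R) :
    ContDiff ℝ ((⊤ : ℕ∞) : WithTop ℕ∞) (psi θ x r R) ∧
    ∀ y, gradient (psi θ x r R) y = (-MM θ x r R y) • (y - x) := by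
  obtain ⟨h1, h2⟩ := rgr d x (QQ d θ r R) (r / 2) (by positivity) (QQ_smooth hP hr hR)
    (fun s hs => QQ_low hP hr hR hs)
  refine ⟨h1, fun y => ?_⟩
  have h3 := h2 y
  have h4 : gradient (psi θ x r R) y = (deriv (QQ d θ r R) ‖y - x‖ / ‖y - x‖) • (y - x) := h3
  rw [h4]
  by_cases hy : y - x = 0
  · rw [hy, smul_zero, smul_zero]
  · congr 1
    have h5 : ‖y - x‖ ≠ 0 := norm_ne_zero_iff.2 hy
    rw [(QQ_der hP hr hR ‖y - x‖).deriv]
    unfold MM pp mm
    have hs := (sph_pos d).ne'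
    rcases hd with rfl | rfl
    · simp only [Nat.add_one_sub_one, pow_one]
      field_simp
    · simp only [Nat.add_one_sub_one]
      field_simp

theorem MM_grad (rgr : RgrStmt) {A : ℝ} {θ θ' : ℝ → ℝ} (hP : Prof A θ θ')
    (x : En d) {r R : ℝ} (hr : 0 < r) (hR : r < R) :
    ContDiff ℝ ((⊤ : ℕ∞) : WithTop ℕ∞) (MM θ x r R) ∧
    ∀ y, gradient (MM θ x r R) y = (deriv (mm d θ r R) ‖y - x‖ / ‖y - x‖) • (y - x) :=
  rgr d x (mm d θ r R) (r / 2) (by positivity) (sm_quot (qq_smooth hP r R) (sph_pos d).ne' d)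
    (fun s hs => mm_low0 hP hr hR hs)

/-- The divergence of the gradient of the potential. -/
theorem dive (rgr : RgrStmt) {A : ℝ} {θ θ' : ℝ → ℝ} (hP : Prof A θ θ')
    (hd : d = 2 ∨ d = 3) (x : En d) {r R : ℝ} (hr : 0 < r) (hR : r < R) (y : En d) :
    ∑ i : Fin d, fderiv ℝ (fun z : En d => MM θ x r R z *
      ⟪EuclideanSpace.basisFun (Fin d) ℝ i, z - x⟫_ℝ) y (EuclideanSpace.basisFun (Fin d) ℝ i) =
      chg d θ' x r y - chg d θ' x R y := by
  obtain ⟨h1, h2⟩ := MM_grad rgr hP x hr hR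
  set e := EuclideanSpace.basisFun (Fin d) ℝ with he
  have hdM : DifferentiableAt ℝ (MM θ x r R) y := (h1.differentiable (by simp)).differentiableAt
  have h3 : ∀ i : Fin d, fderiv ℝ (fun z : En d => MM θ x r R z * ⟪e i, z - x⟫_ℝ) y (e i) =
      MM θ x r R y + ⟪gradient (MM θ x r R) y, e i⟫_ℝ * ⟪e i, y - x⟫_ℝ := by
    intro i
    have h4 : HasFDerivAt (fun z : En d => ⟪e i, z - x⟫_ℝ) (innerSL ℝ (e i)) y := by
      have h5 : HasFDerivAt (fun z : En d => z - x) (ContinuousLinearMap.id ℝ (En d)) y :=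
        (hasFDerivAt_id y).sub_const x
      have h6 := (innerSL ℝ (e i)).hasFDerivAt.comp y h5
      exact h6
    have h7 : HasFDerivAt (fun z : En d => MM θ x r R z * ⟪e i, z - x⟫_ℝ)
        (MM θ x r R y • innerSL ℝ (e i) + ⟪e i, y - x⟫_ℝ • fderiv ℝ (MM θ x r R) y) y :=
      hdM.hasFDerivAt.mul h4
    rw [h7.fderiv]
    have h8 : ⟪gradient (MM θ x r R) y, e i⟫_ℝ = fderiv ℝ (MM θ x r R) y (e i) := by
      unfold gradient
      rw [InnerProductSpace.toDual_symm_apply]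
    have h9 : ⟪e i, e i⟫_ℝ = 1 := by
      rw [real_inner_self_eq_norm_sq, e.norm_eq_one]
      norm_num
    rw [h8]
    simp only [_root_.add_apply, _root_.smul_apply, smul_eq_mul, innerSL_apply_apply]
    rw [h9]
    ring
  rw [Finset.sum_congr rfl (fun i _ => h3 i), Finset.sum_add_distrib, e.sum_inner_mul_inner]
  rw [h2 y, inner_smul_left, real_inner_self_eq_norm_sq]
  simp only [Finset.sum_const, Finset.card_univ, Fintype.card_fin, nsmul_eq_mul, conj_trivial]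
  by_cases hy : y - x = 0
  · have h10 : chg d θ' x r y = 0 := by
      apply chg_supp' hP x hr
      rw [hy, norm_zero]
      positivity
    have h11 : chg d θ' x R y = 0 := by
      apply chg_supp' hP x (hr.trans hR)
      rw [hy, norm_zero]
      linarith
    have h12 : MM θ x r R y = 0 := by
      unfold MM
      apply mm_low hP hr hR
      rw [hy, norm_zero]
      positivity
    rw [h10, h11, h12, hy, norm_zero]
    ring
  · have h5 : 0 < ‖y - x‖ := norm_pos_iff.2 hy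
    have h13 := mm_der hP hd hr hR h5
    have h14 : deriv (mm d θ r R) ‖y - x‖ / ‖y - x‖ * ‖y - x‖ ^ 2 =
        deriv (mm d θ r R) ‖y - x‖ * ‖y - x‖ := by
      field_simp
    rw [h14]
    unfold MM chg
    rw [add_comm, h13]
    have hs := (sph_pos d).ne'
    have hr' := hr.ne'
    have hR' := (hr.trans hR).ne'
    have h6 := h5.ne'
    rw [sub_div, div_div, div_div]
    congr 2
    · ring
    · ring

/-- Integration by parts. -/
theorem lapl (rgr : RgrStmt) {A : ℝ} {θ θ' : ℝ → ℝ} (hP : Prof A θ θ')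
    (hd : d = 2 ∨ d = 3) (x : En d) {r R : ℝ} (hr : 0 < r) (hR : r < R) (φ : En d → ℝ)
    (hφ : ContDiff ℝ ((⊤ : ℕ∞) : WithTop ℕ∞) φ) (hc : HasCompactSupport φ) :
    ∫ y, ⟪gradient φ y, gradient (psi θ x r R) y⟫_ℝ =
      ∫ y, φ y * (chg d θ' x r y - chg d θ' x R y) := by
  obtain ⟨h1, h2⟩ := MM_grad rgr hP x hr hR
  obtain ⟨_, h3⟩ := psi_grad rgr hP hd x hr hR
  set e := EuclideanSpace.basisFun (Fin d) ℝ with he
  set W : Fin d → En d → ℝ := fun i z => MM θ x r R z * ⟪e i, z - x⟫_ℝ with hW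
  have hWs : ∀ i, ContDiff ℝ ((⊤ : ℕ∞) : WithTop ℕ∞) (W i) := fun i =>
    h1.mul (contDiff_const.inner ℝ (contDiff_id.sub contDiff_const))
  have hφd : Differentiable ℝ φ := hφ.differentiable (by simp)
  have hφc : Continuous (fderiv ℝ φ) := hφ.continuous_fderiv (by simp)
  have hcf : HasCompactSupport (fderiv ℝ φ) := hc.fderiv (𝕜 := ℝ)
  have i1 : ∀ i, Integrable (fun y => fderiv ℝ φ y (e i) * W i y) := by
    intro i
    apply Continuous.integrable_of_hasCompactSupport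
    · exact (hφc.clm_apply continuous_const).mul (hWs i).continuous
    · exact (hcf.comp_left (g := fun L : En d →L[ℝ] ℝ => L (e i)) (by simp)).mul_right
  have i2 : ∀ i, Integrable (fun y => φ y * fderiv ℝ (W i) y (e i)) := by
    intro i
    apply Continuous.integrable_of_hasCompactSupport
    · exact hφ.continuous.mul (((hWs i).continuous_fderiv (by simp)).clm_apply continuous_const)
    · exact hc.mul_right
  have i3 : ∀ i, Integrable (fun y => φ y * W i y) := by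
    intro i
    apply Continuous.integrable_of_hasCompactSupport
    · exact hφ.continuous.mul (hWs i).continuous
    · exact hc.mul_right
  have h4 : ∀ y, ⟪gradient φ y, gradient (psi θ x r R) y⟫_ℝ =
      -∑ i : Fin d, fderiv ℝ φ y (e i) * W i y := by
    intro y
    rw [h3 y, inner_smul_right, ← e.sum_inner_mul_inner, Finset.mul_sum, ← Finset.sum_neg_distrib]
    refine Finset.sum_congr rfl fun i _ => ?_
    have h8 : ⟪gradient φ y, e i⟫_ℝ = fderiv ℝ φ y (e i) := by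
      unfold gradient
      rw [InnerProductSpace.toDual_symm_apply]
    rw [h8]
    simp only [hW]
    ring
  have h5 : ∀ y, φ y * (chg d θ' x r y - chg d θ' x R y) =
      ∑ i : Fin d, φ y * fderiv ℝ (W i) y (e i) := by
    intro y
    rw [← dive rgr hP hd x hr hR y, Finset.mul_sum]
  simp_rw [h4, h5]
  rw [integral_neg, integral_finsetSum _ (fun i _ => i1 i), integral_finsetSum _ (fun i _ => i2 i),
    ← Finset.sum_neg_distrib]
  refine Finset.sum_congr rfl fun i _ => ?_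
  exact (integral_mul_fderiv_eq_neg_fderiv_mul_of_integrable (i1 i) (i2 i) (i3 i)
    (fun z _ => hφd z) (fun z _ => ((hWs i).differentiable (by simp)) z)).symm

/-- The total charge. -/
theorem chg_int (rai : RaiStmt) {A : ℝ} {θ θ' : ℝ → ℝ} (hP : Prof A θ θ')
    (hd : d = 2 ∨ d = 3) (x : En d) {r : ℝ} (hr : 0 < r) : ∫ y, chg d θ' x r y = 1 := by
  have h1 := rai d hd x (fun t => θ' (t / r) / (r * sph d * t ^ (d - 1)))
  have h2 : ∫ y, chg d θ' x r y = ∫ y : En d, θ' (‖y - x‖ / r) / (r * sph d * ‖y - x‖ ^ (d - 1)) :=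
    rfl
  rw [h2, h1]
  have hs := (sph_pos d).ne'
  have h3 : ∫ ρ in Ioi (0 : ℝ), ρ ^ (d - 1) * (θ' (ρ / r) / (r * sph d * ρ ^ (d - 1))) =
      ∫ ρ in Ioi (0 : ℝ), (sph d)⁻¹ * (θ' (ρ / r) / r) := by
    apply setIntegral_congr_fun measurableSet_Ioi
    intro ρ hρ
    have h4 : ρ ^ (d - 1) ≠ 0 := pow_ne_zero _ (ne_of_gt hρ)
    have hr' := hr.ne'
    show ρ ^ (d - 1) * (θ' (ρ / r) / (r * sph d * ρ ^ (d - 1))) = (sph d)⁻¹ * (θ' (ρ / r) / r)
    field_simp
  rw [h3, integral_const_mul, ← mul_assoc, mul_inv_cancel₀ hs, one_mul]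
  have h5 : ∫ ρ in Ioi (0 : ℝ), θ' (ρ / r) / r = ∫ ρ in Ioc (0 : ℝ) r, θ' (ρ / r) / r := by
    apply setIntegral_eq_of_subset_of_forall_sdiff_eq_zero measurableSet_Ioi Ioc_subset_Ioi_self
    intro ρ hρ
    have h6 : r ≤ ρ := by
      by_contra hcon
      exact hρ.2 ⟨hρ.1, (not_le.1 hcon).le⟩
    have h7 : θ' (ρ / r) = 0 := by
      apply hP.zero'
      right
      rw [le_div_iff₀ hr]
      linarith
    rw [h7, zero_div]
  rw [h5, ← intervalIntegral.integral_of_le hr.le]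
  have h8 : ∀ t ∈ uIcc (0 : ℝ) r, HasDerivAt (fun s => θ (s / r)) (θ' (t / r) / r) t := by
    intro t _
    have h9 := (hP.der (t / r)).comp t ((hasDerivAt_id t).div_const r)
    have h10 : θ' (t / r) * (1 / r) = θ' (t / r) / r := by ring
    rw [h10] at h9
    exact h9
  have hcont : Continuous (fun t => θ' (t / r) / r) :=
    (hP.smooth'.continuous.comp (continuous_id.div_const r)).div_const r
  rw [intervalIntegral.integral_eq_sub_of_hasDerivAt h8 (hcont.intervalIntegrable _ _)]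
  rw [div_self hr.ne', hP.one 1 le_rfl, zero_div, hP.zero 0 (by norm_num)]
  norm_num

/-- The energy. -/
theorem engy (rai : RaiStmt) (rgr : RgrStmt) {A : ℝ} {θ θ' : ℝ → ℝ} (hP : Prof A θ θ')
    (hd : d = 2 ∨ d = 3) (x : En d) {r R : ℝ} (hr : 0 < r) (hR : r < R) :
    ∫ y, ‖gradient (psi θ x r R) y‖ ^ 2 ≤
      (sph d)⁻¹ * ∫ ρ in (r / 2)..R, (ρ ^ (d - 1))⁻¹ := by
  obtain ⟨_, h3⟩ := psi_grad rgr hP hd x hr hR
  have hs0 := sph_pos d
  have hs := hs0.ne'
  have hR0 : 0 < R := hr.trans hR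
  have h4 : ∀ y, ‖gradient (psi θ x r R) y‖ ^ 2 =
      (fun ρ : ℝ => mm d θ r R ρ ^ 2 * ρ ^ 2) ‖y - x‖ := by
    intro y
    rw [h3 y, norm_smul, Real.norm_eq_abs, abs_neg, mul_pow, sq_abs]
    rfl
  simp_rw [h4]
  rw [rai d hd x (fun ρ : ℝ => mm d θ r R ρ ^ 2 * ρ ^ 2)]
  have h5 : ∫ ρ in Ioi (0 : ℝ), ρ ^ (d - 1) * (mm d θ r R ρ ^ 2 * ρ ^ 2) =
      ∫ ρ in Ioc (r / 2) R, ρ ^ (d - 1) * (mm d θ r R ρ ^ 2 * ρ ^ 2) := by
    apply setIntegral_eq_of_subset_of_forall_sdiff_eq_zero measurableSet_Ioi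
    · intro ρ hρ
      have : r / 2 < ρ := hρ.1
      show 0 < ρ
      linarith
    · intro ρ hρ
      have h6 : mm d θ r R ρ = 0 := by
        by_cases h7 : ρ ≤ r / 2
        · exact mm_low hP hr hR h7
        · apply mm_high hP hr hR
          by_contra hcon
          exact hρ.2 ⟨not_le.1 h7, (not_le.1 hcon).le⟩
      rw [h6]
      ring
  have h8 : ∀ ρ ∈ Ioc (r / 2) R, ρ ^ (d - 1) * (mm d θ r R ρ ^ 2 * ρ ^ 2) =
      (sph d)⁻¹ ^ 2 * (qq θ r R ρ ^ 2 * (ρ ^ (d - 1))⁻¹) := by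
    intro ρ hρ
    have h9 : ρ ≠ 0 := by
      have : r / 2 < ρ := hρ.1
      intro h
      linarith
    unfold mm
    rcases hd with rfl | rfl
    · simp only [Nat.add_one_sub_one, pow_one]
      field_simp
    · simp only [Nat.add_one_sub_one]
      field_simp
  rw [h5, setIntegral_congr_fun measurableSet_Ioc h8, integral_const_mul]
  have hle : r / 2 ≤ R := by linarith
  have hci : ContinuousOn (fun ρ : ℝ => (ρ ^ (d - 1))⁻¹) (Icc (r / 2) R) := by
    apply (continuousOn_pow (d - 1)).inv₀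
    intro t ht
    apply pow_ne_zero
    have : r / 2 ≤ t := ht.1
    intro h
    linarith
  have hcq : ContinuousOn (fun ρ : ℝ => qq θ r R ρ ^ 2 * (ρ ^ (d - 1))⁻¹) (Icc (r / 2) R) :=
    ((qq_smooth hP r R).continuous.pow 2).continuousOn.mul hci
  have h10 : ∫ ρ in Ioc (r / 2) R, qq θ r R ρ ^ 2 * (ρ ^ (d - 1))⁻¹ ≤
      ∫ ρ in Ioc (r / 2) R, (ρ ^ (d - 1))⁻¹ := by
    apply setIntegral_mono_on
    · exact (hcq.integrableOn_Icc).mono_set Ioc_subset_Icc_self
    · exact (hci.integrableOn_Icc).mono_set Ioc_subset_Icc_self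
    · exact measurableSet_Ioc
    · intro ρ hρ
      have hρ0 : 0 < ρ := by
        have : r / 2 < ρ := hρ.1
        linarith
      have h11 := qq_nonneg hP hr hR hρ0.le
      have h12 := qq_le_one hP (r := r) (R := R) ρ
      have h13 : qq θ r R ρ ^ 2 ≤ 1 := pow_le_one₀ h11 h12
      exact mul_le_of_le_one_left (by positivity) h13
  rw [intervalIntegral.integral_of_le hle]
  calc sph d * ((sph d)⁻¹ ^ 2 * ∫ ρ in Ioc (r / 2) R, qq θ r R ρ ^ 2 * (ρ ^ (d - 1))⁻¹)
      = (sph d)⁻¹ * ∫ ρ in Ioc (r / 2) R, qq θ r R ρ ^ 2 * (ρ ^ (d - 1))⁻¹ := by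
        field_simp
    _ ≤ _ := mul_le_mul_of_nonneg_left h10 (by positivity)

/-- HFG -/
theorem hfg (rai : RaiStmt) (rgr : RgrStmt) : HfgStmt := by
  intro d A θ θ' hd hA hP x R hR0
  refine ⟨chg d θ' x R, fun r γ hr hR hγ hen => ?_⟩
  obtain ⟨hsm, hgr⟩ := psi_grad rgr hP hd x hr hR
  refine ⟨psi θ x r R, chg d θ' x r, ?_⟩
  have hs := sph_pos d
  constructor
  · exact hsm
  · intro y
    exact QQ_nonneg hP hr hR (norm_nonneg _)
  · intro y hy
    exact QQ_high hP hr hR hy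
  · exact (chg_smooth rgr hP x hr).continuous
  · exact (chg_smooth rgr hP x hR0).continuous
  · exact chg_nonneg hP x hr
  · exact chg_supp hP x hr
  · intro y
    have h1 := chg_le hA hP hd x hr y
    have h2 : A * 2 ^ (d - 1) / (sph d * R ^ d) * R ^ d / r ^ d =
        A * 2 ^ (d - 1) / (sph d * r ^ d) := by
      have hR' := hR0.ne'
      have hr' := hr.ne'
      field_simp
    rw [h2]
    exact h1
  · exact chg_int rai hP hd x hr
  · intro y
    exact ⟨chg_nonneg hP x hR0 y, chg_le hA hP hd x hR0 y⟩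
  · exact chg_supp hP x hR0
  · intro y h1 h2
    unfold chg
    have h3 : 0 < θ' (‖y - x‖ / R) := by
      apply hP.pos
      · rw [lt_div_iff₀ hR0]
        linarith
      · rw [div_lt_one hR0]
        exact h2
    have h4 : 0 < ‖y - x‖ := by linarith
    positivity
  · intro φ hφ hc
    exact lapl rgr hP hd x hr hR φ hφ hc
  · exact (engy rai rgr hP hd x hr hR).trans hen

end

end Pool.Agent.BEH.H22
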