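import Pool.Agent.Helper25_BEH.AllD
import Pool.Agent.Helper41_BEH.HFD
import Pool.Agent.Helper80_BEH.MVD
import Pool.Agent.Helper22_BEH.HFG
import Pool.Agent.Helper39_BEH.HU3
import Pool.Agent.Helper43_BEH.HOL
import Pool.Agent.Helper69_BEH.SYE
import Pool.Agent.Helper86_BEH.REP
import Pool.Agent.Helper57_BEH.MVI
import Pool.Agent.Helper35_BEH.POS
import Pool.Agent.Helper62_BEH.SMP
import Pool.Agent.Helper91_BEH.STU
import Pool.Agent.Helper6_BEH.DEN

/-!
Squad BEH: assembly of all rows. `den` is the theorem on domains with small holes in the plane and in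
the space, `ded` its version in every dimension with a uniform final state theorem.
-/

set_option autoImplicit false

namespace Pool.Agent.BEH.All

open Pool.Agent.BEH

theorem rai : RaiStmt := H8.rai
theorem rgr : RgrStmt := H77.rgr
theorem hfg : HfgStmt := H22.hfg rai rgr
theorem hu3 : Hu3Stmt := H39.hu3 H27.chi rai rgr H62.err
theorem hol : HolStmt := H43.hol H4.the hu3 H25.hu2A hfg
theorem sye : SyeStmt := H69.sye H50.leb H52.qua hol
theorem mvi : MviStmt := H57.mvi H4.the hfg
theorem pos : PosStmt := H35.pos H50.leb mvi
theorem smp : SmpStmt := H62.smp H86.rep H32.abv H43.mne pos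

/-- The theorem on domains with small holes, in the plane and in the space. -/
theorem den : DenStmt :=
  H6.den H25.mmxA H44.egk H86.rep sye H40.geo H25.uppA H25.lowA smp H91.stu H65.pow

theorem hfd : HfdStmt := H41.hfd H42.vod H50.rad rgr
theorem mvd : MvdStmt := H80.mvd H4.the H42.vod hfd

/-- The theorem on domains with small holes, in every dimension with a uniform final state theorem. -/
theorem ded : DedStmt := H25.dedA hfd mvd

/-- The uniform final state theorem holds in the plane and in the space. -/
theorem un3 : Uni 2 ∧ Uni 3 := H91.un3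

end Pool.Agent.BEH.All
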