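import Pool.Agent.BEH.StmtsS
import Pool.Agent.Helper22_BEH.All
import Pool.Agent.Helper12_BEH.CPT
import Pool.Agent.Helper85_BEH.STB
import Pool.Agent.Helper66_BEH.DEC
import Pool.Agent.Helper41_BEH.DES

/-!
Squad BEH, part S: assembly.
-/

set_option autoImplicit false

namespace Pool.Agent.BEH.All

open Pool.Agent.BEH

theorem syd : SydStmt := H28.syd H50.leb H52.qua (H62.hod H4.the H25.hu2A H42.vod H25.hudA hfd)
theorem smd : SmdStmt := H95.smd H79.red H32.abv H43.mne (H58.pod H50.leb mvd)
theorem cpt : CptStmt := H12.cpt H77.mmt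
theorem stb : StbStmt := H85.stb H25.mmxA cpt
theorem dec : DecStmt := H66.dec H25.mmxA H79.red syd H40.geo H25.uppA H25.lowA smd

/-- Stability of the theorem on small holes. -/
theorem des : DesStmt := H41.des H44.egk stb dec H25.stdA H65.pow

end Pool.Agent.BEH.All
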