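import Pool.Agent.BEH.Defs
import Pool.Agent.Helper70_BE01.Conv

/-!
Squad BEH: the constant `a` of the damping can be changed by scaling.
-/

set_option autoImplicit false

namespace Pool.Agent.BEH.H22

open Pool.Agent Pool.Agent.BE01 Pool.Agent.BEH
open Set Filter Topology MeasureTheory
open scoped InnerProductSpace ENNReal

noncomputable section

variable {d : ℕ} {Ω : Set (En d)}

theorem h10_smul {u : Lp ℝ 2 (mu Ω)} {G : Lp (En d) 2 (mu Ω)} (k : ℝ) (h : (u, G) ∈ BE01.H10 Ω) :
    (k • u, k • G) ∈ BE01.H10 Ω := by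
  have h1 : Continuous fun P : Lp ℝ 2 (mu Ω) × Lp (En d) 2 (mu Ω) => k • P :=
    continuous_const_smul k
  suffices h0 : k • (u, G) ∈ BE01.H10 Ω from h0
  refine map_mem_closure (f := fun P : Lp ℝ 2 (mu Ω) × Lp (En d) 2 (mu Ω) => k • P) h1 h ?_
  rintro P ⟨ψ, hψ, hP1, hP2⟩
  have hd : ∀ x, DifferentiableAt ℝ ψ x := fun x =>
    (hψ.1.differentiable (by simp)).differentiableAt
  refine ⟨fun x => k * ψ x, ⟨contDiff_const.mul hψ.1, hψ.2.1.mul_left, ?_⟩, ?_, ?_⟩
  · refine (closure_mono ?_).trans hψ.2.2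
    intro x hx hx0
    apply hx
    simp [hx0]
  · show ((k • P.1 : Lp ℝ 2 (mu Ω)) : En d → ℝ) =ᵐ[mu Ω] fun x => k * ψ x
    filter_upwards [hP1, Lp.coeFn_smul k P.1] with x h2 h3
    rw [h3, Pi.smul_apply, h2, smul_eq_mul]
  · show ((k • P.2 : Lp (En d) 2 (mu Ω)) : En d → En d) =ᵐ[mu Ω] gradient fun x => k * ψ x
    filter_upwards [hP2, Lp.coeFn_smul k P.2] with x h2 h3
    rw [h3, Pi.smul_apply, h2]
    have h4 : gradient (fun x => k * ψ x) x = k • gradient ψ x := by
      have h5 : HasGradientAt ψ (gradient ψ x) x := (hd x).hasGradientAt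
      have h6 : HasFDerivAt (fun y => k * ψ y)
          (k • InnerProductSpace.toDual ℝ (En d) (gradient ψ x)) x := by
        exact h5.hasFDerivAt.const_mul k
      have h7 : HasGradientAt (fun y => k * ψ y) (k • gradient ψ x) x := by
        rw [hasGradientAt_iff_hasFDerivAt, map_smul]
        exact h6
      exact h7.gradient
    rw [h4]

/-- The constant `a` may be replaced by any other constant. -/
theorem rt_scale {a b α : ℝ} (ha : 0 < a) (hb : 0 < b) (hα : 0 < α) (h : Rt Ω a α) :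
    Rt Ω b α := by
  obtain ⟨u, v, w, G, hs, c, C, hc, hE⟩ := h
  set k : ℝ := (a / b) ^ (1 / α) with hk
  have hk0 : 0 < k := Real.rpow_pos_of_pos (by positivity) _
  have hka : b * k ^ α = a := by
    rw [hk, ← Real.rpow_mul (by positivity), one_div, inv_mul_cancel₀ hα.ne', Real.rpow_one]
    field_simp
  refine ⟨fun t => k • u t, fun t => k • v t, fun t => k • w t, fun t => k • G t,
    ⟨fun t ht => h10_smul k (hs.dom t ht), fun t ht => ?_, fun t ht => (hs.du t ht).const_smul k,
      fun t ht => (hs.dv t ht).const_smul k, hs.G_cont.const_smul k, hs.w_cont.const_smul k,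
      fun t ht => ?_, fun t ht ψ hψ => ?_⟩, k ^ 2 * c, k ^ 2 * C, by positivity,
      fun t ht => ?_⟩
  · obtain ⟨G', hG'⟩ := hs.vdom t ht
    exact ⟨k • G', h10_smul k hG'⟩
  · obtain ⟨D, hD⟩ := hs.v_bdd t ht
    refine ⟨k * D, ?_⟩
    filter_upwards [hD, Lp.coeFn_smul k (v t)] with x h1 h2
    rw [h2, Pi.smul_apply, smul_eq_mul, abs_mul, abs_of_pos hk0]
    exact mul_le_mul_of_nonneg_left h1 hk0.le
  · have h1 := hs.eq t ht ψ hψ
    have h2 : ∫ x, (k • w t) x * ψ x + ⟪(k • G t) x, gradient ψ x⟫_ℝ +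
        b * |(k • v t) x| ^ α * (k • v t) x * ψ x ∂(mu Ω) =
        ∫ x, k * (w t x * ψ x + ⟪G t x, gradient ψ x⟫_ℝ + a * |v t x| ^ α * v t x * ψ x)
          ∂(mu Ω) := by
      refine integral_congr_ae ?_
      filter_upwards [Lp.coeFn_smul k (w t), Lp.coeFn_smul k (v t), Lp.coeFn_smul k (G t)]
        with x h3 h4 h5
      rw [h3, h4, h5]
      simp only [Pi.smul_apply, smul_eq_mul, inner_smul_left]
      rw [abs_mul, abs_of_pos hk0, Real.mul_rpow hk0.le (abs_nonneg _), ← hka]
      simp only [conj_trivial]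
      ring
    rw [h2, integral_const_mul, h1, mul_zero]
  · have h2 : BE01.energy Ω (fun t => k • v t) (fun t => k • G t) t =
        k ^ 2 * BE01.energy Ω v G t := by
      unfold BE01.energy
      rw [← integral_const_mul]
      refine integral_congr_ae ?_
      filter_upwards [Lp.coeFn_smul k (v t), Lp.coeFn_smul k (G t)] with x h4 h5
      rw [h4, h5]
      simp only [Pi.smul_apply, smul_eq_mul, norm_smul, Real.norm_eq_abs]
      rw [abs_of_pos hk0]
      ring
    rw [h2]
    have h3 := hE t ht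
    have h4 : 0 ≤ k ^ 2 := by positivity
    constructor
    · calc k ^ 2 * c * (1 + t) ^ (-(2 / α)) = k ^ 2 * (c * (1 + t) ^ (-(2 / α))) := by ring
        _ ≤ _ := mul_le_mul_of_nonneg_left h3.1 h4
    · calc k ^ 2 * BE01.energy Ω v G t ≤ k ^ 2 * (C * (1 + t) ^ (-(2 / α))) :=
          mul_le_mul_of_nonneg_left h3.2 h4
        _ = _ := by ring

end

end Pool.Agent.BEH.H22
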